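import Pool.Agent.MWI.StmtsT

/-!
# MWI, row N2C: the lemma N2 in our coding (helper70)
-/

set_option autoImplicit false

namespace Pool.Agent.MWI.H70

open Pool.Agent.Helper14_MV Pool.Agent.Helper2_MV Pool.Agent.MVD Pool.Agent.MWI

/-- the linear letter of the first place -/
def hd : List ℕ → List ℕ
  | [] => []
  | q :: _ => [3 * q + 1]

/-- the linear letter of the place behind `i` -/
def nx : List ℕ → ℕ → List ℕ
  | [], _ => []
  | q :: R, i => if q = i then hd R else nx R i

/-- the substitution -/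
def gg (P Q : List ℕ) (c : ℕ) : List ℕ :=
  if c = 0 then [0] else if c % 3 = 1 then [c + 1] else if c % 3 = 0 then []
    else if c = 2 then hd Q else if (c - 5) / 3 ∈ P then [3 * ((c - 5) / 3) + 1]
      else nx Q ((c - 5) / 3)

theorem gg0 (P Q : List ℕ) : gg P Q 0 = [0] := by simp [gg]

theorem gg1 (P Q : List ℕ) (e : ℕ) : gg P Q (3 * e + 1) = [3 * e + 2] := by
  unfold gg
  rw [if_neg (by omega), if_pos (by omega)]

theorem gg2 (P Q : List ℕ) : gg P Q 2 = hd Q := by simp [gg]

theorem ggP {P : List ℕ} (Q : List ℕ) {e : ℕ} (h : e ∈ P) : gg P Q (3 * e + 5) = [3 * e + 1] := by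
  unfold gg
  have e1 : (3 * e + 5 - 5) / 3 = e := by omega
  rw [if_neg (by omega), if_neg (by omega), if_neg (by omega), if_neg (by omega), e1, if_pos h]

theorem ggQ {P : List ℕ} (Q : List ℕ) {e : ℕ} (h : e ∉ P) : gg P Q (3 * e + 5) = nx Q e := by
  unfold gg
  have e1 : (3 * e + 5 - 5) / 3 = e := by omega
  rw [if_neg (by omega), if_neg (by omega), if_neg (by omega), if_neg (by omega), e1, if_neg h]

theorem hd_mod {R : List ℕ} {y : ℕ} (h : y ∈ hd R) : y % 3 = 1 := by
  rcases R with _ | ⟨q, R⟩
  · simp [hd] at h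
  · simp only [hd, List.mem_singleton] at h
    omega

theorem nx_mod {R : List ℕ} {i y : ℕ} (h : y ∈ nx R i) : y % 3 = 1 := by
  induction R with
  | nil => simp [nx] at h
  | cons q R ih =>
    unfold nx at h
    by_cases h1 : q = i
    · rw [if_pos h1] at h
      exact hd_mod h
    · rw [if_neg h1] at h
      exact ih h

/-- the values of the substitution -/
theorem gg_cases (P Q : List ℕ) (c y : ℕ) (h : y ∈ gg P Q c) :
    (c = 0 ∧ y = 0) ∨ (c % 3 = 1 ∧ y = c + 1) ∨ (c ≠ 0 ∧ y % 3 = 1) := by
  unfold gg at h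
  by_cases h0 : c = 0
  · rw [if_pos h0] at h
    exact Or.inl ⟨h0, by simpa using h⟩
  rw [if_neg h0] at h
  by_cases h1 : c % 3 = 1
  · rw [if_pos h1] at h
    exact Or.inr (Or.inl ⟨h1, by simpa using h⟩)
  rw [if_neg h1] at h
  by_cases h2 : c % 3 = 0
  · rw [if_pos h2] at h
    simp at h
  rw [if_neg h2] at h
  refine Or.inr (Or.inr ⟨h0, ?_⟩)
  by_cases h3 : c = 2
  · rw [if_pos h3] at h
    exact hd_mod h
  rw [if_neg h3] at h
  by_cases h4 : (c - 5) / 3 ∈ P
  · rw [if_pos h4, List.mem_singleton] at h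
    omega
  · rw [if_neg h4] at h
    exact nx_mod h

theorem gg_zero {P Q : List ℕ} {c : ℕ} (hc : c ≠ 0) : 0 ∉ gg P Q c := by
  intro h
  rcases gg_cases P Q c 0 h with h1 | h1 | h1
  · exact hc h1.1
  · omega
  · omega

theorem nx_app {R : List ℕ} {q : ℕ} : ∀ {R0 : List ℕ}, q ∉ R0 → nx (R0 ++ q :: R) q = hd R := by
  intro R0
  induction R0 with
  | nil => intro _; simp [nx]
  | cons a R0 ih =>
    intro h
    rw [List.cons_append]
    unfold nx
    rw [if_neg (by rintro rfl; exact h (by simp))]
    exact ih (fun h1 => h (by simp [h1]))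

theorem partQ {P Q : List ℕ} (hd0 : (P ++ Q).Nodup) : ∀ R R0 : List ℕ, Q = R0 ++ R →
    hd R ++ (R.flatMap (fun e => [3 * e + 1, 3 * e + 5])).flatMap (gg P Q) = pr R := by
  intro R
  induction R with
  | nil => intro _ _; rfl
  | cons q R ih =>
    intro R0 hQ
    have hq : q ∈ Q := by rw [hQ]; simp
    have hqP : q ∉ P := fun h => (List.disjoint_of_nodup_append hd0) h hq
    have hQn : Q.Nodup := (List.nodup_append.1 hd0).2.1
    have hq0 : q ∉ R0 := by
      intro h
      rw [hQ] at hQn
      exact (List.disjoint_of_nodup_append hQn) h (by simp)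
    have e1 : gg P Q (3 * q + 5) = hd R := by
      rw [ggQ Q hqP, hQ, nx_app hq0]
    have ih' := ih (R0 ++ [q]) (by rw [hQ]; simp)
    rw [List.flatMap_cons, List.flatMap_append]
    have e2 : [3 * q + 1, 3 * q + 5].flatMap (gg P Q) = [3 * q + 2] ++ hd R := by
      rw [List.flatMap_cons, List.flatMap_cons, List.flatMap_nil, gg1, e1, List.append_nil]
    rw [e2]
    show [3 * q + 1] ++ _ = _
    unfold pr at ih' ⊢
    rw [List.flatMap_cons, ← ih']
    simp

theorem partP {P Q : List ℕ} : ∀ R : List ℕ, (∀ e ∈ R, e ∈ P) →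
    (R.flatMap (fun e => [3 * e + 1, 3 * e + 5])).flatMap (gg P Q) = pl R := by
  intro R
  induction R with
  | nil => intro _; rfl
  | cons q R ih =>
    intro h
    rw [List.flatMap_cons, List.flatMap_append, ih (fun e he => h e (by simp [he]))]
    have e2 : [3 * q + 1, 3 * q + 5].flatMap (gg P Q) = [3 * q + 2, 3 * q + 1] := by
      rw [List.flatMap_cons, List.flatMap_cons, List.flatMap_nil, gg1, ggP Q (h q (by simp))]
      rfl
    rw [e2]
    rfl

theorem split0 {g : ℕ → List ℕ} (h0 : g 0 = [0]) (h1 : ∀ c, c ≠ 0 → 0 ∉ g c) :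
    ∀ (u a r : List ℕ), u.flatMap g = a ++ 0 :: r → ∃ a' r', u = a' ++ 0 :: r' ∧
      a'.flatMap g = a ∧ r'.flatMap g = r := by
  intro u
  induction u with
  | nil => intro a r h; simp at h
  | cons c u ih =>
    intro a r h
    rw [List.flatMap_cons] at h
    by_cases hc : c = 0
    · subst hc
      rw [h0] at h
      rcases a with _ | ⟨b, a⟩
      · refine ⟨[], u, rfl, rfl, ?_⟩
        simpa using h
      · simp only [List.cons_append, List.nil_append, List.cons.injEq] at h
        obtain ⟨h2, h3⟩ := h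
        obtain ⟨a', r', e1, e2, e3⟩ := ih a r h3
        refine ⟨0 :: a', r', by rw [e1]; rfl, ?_, e3⟩
        rw [List.flatMap_cons, h0, e2, h2]
        rfl
    · rcases List.append_eq_append_iff.1 h with ⟨s, h2, h3⟩ | ⟨s, h2, h3⟩
      · obtain ⟨a', r', e1, e2, e3⟩ := ih s r h3
        refine ⟨c :: a', r', by rw [e1]; rfl, ?_, e3⟩
        rw [List.flatMap_cons, e2, h2]
      · rcases s with _ | ⟨b, s⟩
        · rw [List.append_nil] at h2
          obtain ⟨a', r', e1, e2, e3⟩ := ih [] r (by simpa using h3.symm)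
          refine ⟨c :: a', r', by rw [e1]; rfl, ?_, e3⟩
          rw [List.flatMap_cons, e2, h2, List.append_nil]
        · rw [List.cons_append, List.cons.injEq] at h3
          exfalso
          apply h1 c hc
          rw [h2, ← h3.1]
          simp

theorem n2c (hN : N2tStmt) : N2cStmt := by
  intro β hm hi P Q m h1 hP
  obtain ⟨w', hw, hn⟩ := hN β hm hi P Q m h1 hP
  have hnd : (P ++ Q).Nodup := hP.nodup_iff.2 List.nodup_range
  have h2 := hw.sub (gg P Q)
  have e0 : (bw P Q m).flatMap (gg P Q) = ww P Q (List.range m) := by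
    have e1 : bw P Q m = P.flatMap (fun e => [3 * e + 1, 3 * e + 5]) ++
        (((0 :: (zs (List.range m) ++ [0])) ++ [2]) ++
          Q.flatMap (fun e => [3 * e + 1, 3 * e + 5])) := by
      have key : ∀ R L : List ℕ, (R.map (fun e => e + 1)).flatMap (fun r =>
          (if r = 0 then L else [3 * (r - 1) + 1]) ++ [3 * r + 2]) =
            R.flatMap (fun e => [3 * e + 1, 3 * e + 5]) := by
        intro R L
        induction R with
        | nil => rfl
        | cons e R ih =>
          rw [List.map_cons, List.flatMap_cons, List.flatMap_cons, ih]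
          congr 1
      unfold bw Wm Bw
      rw [List.flatMap_append, List.flatMap_cons, key, key]
      simp
    have e3 : ∀ R : List ℕ, (zs R).flatMap (gg P Q) = zz R := by
      intro R
      induction R with
      | nil => rfl
      | cons e R ih =>
        unfold zs zz at ih ⊢
        rw [List.map_cons, List.flatMap_cons, ih, gg1]
        rfl
    rw [e1, List.flatMap_append, partP P (fun _ h => h), List.flatMap_append, List.flatMap_append]
    have e4 : (0 :: (zs (List.range m) ++ [0])).flatMap (gg P Q) =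
        0 :: (zz (List.range m) ++ [0]) := by
      rw [List.flatMap_cons, List.flatMap_append, e3, gg0, List.flatMap_cons, List.flatMap_nil, gg0]
      rfl
    have e5 : [2].flatMap (gg P Q) = hd Q := by
      rw [List.flatMap_cons, List.flatMap_nil, gg2, List.append_nil]
    rw [e4, e5, List.append_assoc (0 :: (zz (List.range m) ++ [0])), partQ hnd Q [] rfl]
    unfold ww
    simp
  rw [e0] at h2
  refine ⟨_, h2, ?_⟩
  rintro ⟨hc, hb⟩
  apply hn
  constructor
  · rw [← hc]
    clear hc hb h2 hw hn
    induction w' with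
    | nil => rfl
    | cons c w' ih =>
      rw [List.flatMap_cons, List.count_append, ← ih]
      by_cases h0 : c = 0
      · subst h0
        rw [gg0, List.count_cons_self]
        simp [Nat.add_comm]
      · rw [List.count_cons_of_ne h0, List.count_eq_zero.2 (gg_zero h0), zero_add]
  · intro e he
    obtain ⟨a, b, c, h3, h4⟩ := hb e he
    obtain ⟨a', r', e1, _, e2⟩ := split0 (gg0 P Q) (fun _ => gg_zero) _ _ _ h3
    obtain ⟨b', c', e3, e4, _⟩ := split0 (gg0 P Q) (fun _ => gg_zero) _ _ _ e2
    refine ⟨a', b', c', by rw [e1, e3], ?_⟩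
    rw [← e4] at h4
    obtain ⟨x, hx, hy⟩ := List.mem_flatMap.1 h4
    rcases gg_cases P Q x _ hy with h5 | h5 | h5
    · omega
    · have : x = 3 * e + 1 := by omega
      rw [← this]
      exact hx
    · omega

end Pool.Agent.MWI.H70
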